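import Pool.Agent.Lib.MP_edb5be_nt.H26W.Path
import Pool.Agent.Lib.MP_0a5adf_nt.H57.Par

/-!
# Explicit constants for maximum excursions (helper26)
-/

set_option autoImplicit false

namespace Pool.Agent.Lib.MP_0a5adf_nt.H26.Exc

open Finset Function
open scoped ENNReal

open Pool.Agent.Lib.MP_0a5adf_nt.H57.Par (T o t e)

theorem T_eq : Pool.Agent.Lib.MP_0a5adf_nt.H57.Par.T = Pool.Agent.Lib.MP_edb5be_nt.H26U.Tn := rfl

theorem o_eq : Pool.Agent.Lib.MP_0a5adf_nt.H57.Par.o = Pool.Agent.Lib.MP_edb5be_nt.H26U.od := rfl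

/-- translation of a bound for the correction factor -/
theorem of_rt {C : ℝ} {n j : ℕ} (hn : 1 ≤ n) (h : Pool.Agent.Lib.MP_edb5be_nt.H26U.rt n j ≤ C) :
    (2 : ℝ) ^ j * (T^[j] n : ℝ) ≤ C * (3 ^ o n j * n) := by
  have hn' : (0 : ℝ) < n := by exact_mod_cast hn
  rw [Pool.Agent.Lib.MP_edb5be_nt.H26U.rt, div_le_iff₀ (by positivity)] at h
  exact h

theorem up_192 (n j : ℕ) (hn : 1 ≤ n) :
    ∃ i ≤ j, (2 : ℝ) ^ i * (T^[j] n : ℝ) ≤ 1.92 * (3 ^ o n i * n) := by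
  obtain ⟨i, hij, h1, h2⟩ := Pool.Agent.Lib.MP_0a5adf_nt.H57.Par.first n j
  by_cases hall : ∀ a < i, T^[a] n ≠ 1
  · refine ⟨i, hij, ?_⟩
    rw [← h1]
    exact of_rt hn (Pool.Agent.Lib.MP_edb5be_nt.H26U.rt_all n hn i
      (fun a b hab hb => h2 a b hab (by omega)) hall)
  · push Not at hall
    obtain ⟨a, ha, ha1⟩ := hall
    have e1 : T^[a + 1] n = 2 := by
      rw [iterate_succ_apply', ha1]
      rfl
    have e2 : T^[a + 1 + 1] n = 1 := by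
      rw [iterate_succ_apply', e1]
      rfl
    have hi : i = a + 1 := by
      by_contra hne
      exact h2 a (a + 1 + 1) (by omega) (by omega) (by rw [ha1, e2])
    have hj : T^[j] n = 2 := by rw [← h1, hi, e1]
    rcases Nat.lt_or_ge 1 n with h3 | h3
    · refine ⟨0, by omega, ?_⟩
      rw [hj]
      have h4 : (2 : ℝ) ≤ n := by exact_mod_cast h3
      have h5 : o n 0 = 0 := rfl
      rw [h5]
      norm_num
      linarith
    · have h4 : n = 1 := by omega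
      subst h4
      refine ⟨1, by omega, ?_⟩
      rw [hj]
      have h5 : o 1 1 = 1 := by decide
      rw [h5]
      norm_num

theorem t_le (n : ℕ) (hn : 1 ≤ n) : t n ≤ ENNReal.ofReal 1.92 * e n :=
  Pool.Agent.Lib.MP_0a5adf_nt.H57.Par.t_le_e (by norm_num) n fun j => up_192 n j hn

theorem all_192 (n j : ℕ) (hn : 1 ≤ n) (hinj : ∀ a b, a < b → b < j → T^[a] n ≠ T^[b] n)
    (h1 : ∀ i < j, T^[i] n ≠ 1) : (2 : ℝ) ^ j * (T^[j] n : ℝ) ≤ 1.92 * (3 ^ o n j * n) :=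
  of_rt hn (Pool.Agent.Lib.MP_edb5be_nt.H26U.rt_all n hn j hinj h1)

theorem all_24 (n j : ℕ) (hn : 1 ≤ n) (hinj : ∀ a b, a < b → b < j → T^[a] n ≠ T^[b] n)
    (h1 : ∀ i < j, 2 ^ 24 ≤ T^[i] n) : (2 : ℝ) ^ j * (T^[j] n : ℝ) ≤ 1.3 * (3 ^ o n j * n) :=
  of_rt hn (Pool.Agent.Lib.MP_edb5be_nt.H26U.rt_24 n hn j hinj h1)

theorem all_71 (n j : ℕ) (hn : 1 ≤ n) (hinj : ∀ a b, a < b → b < j → T^[a] n ≠ T^[b] n)
    (h1 : ∀ i < j, 2 ^ 71 ≤ T^[i] n) : (2 : ℝ) ^ j * (T^[j] n : ℝ) ≤ 1.03 * (3 ^ o n j * n) :=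
  of_rt hn (Pool.Agent.Lib.MP_edb5be_nt.H26U.rt_71 n hn j hinj h1)

theorem all_tail (n j : ℕ) (m : ℝ) (hn : 1 ≤ n) (hm : 2 ≤ m)
    (hinj : ∀ a b, a < b → b < j → T^[a] n ≠ T^[b] n) (h1 : ∀ i < j, m ≤ (T^[i] n : ℝ)) :
    (2 : ℝ) ^ j * (T^[j] n : ℝ) ≤ (1 + 1.6 * m ^ (-0.048 : ℝ)) * (3 ^ o n j * n) :=
  of_rt hn (Pool.Agent.Lib.MP_edb5be_nt.H26W.rt_tail n hn j m hm hinj h1)

/-- If the maximum excursions of the numbers below `m` are below `n`. -/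
theorem t_le_tail (n : ℕ) (m : ℝ) (hm : 2 ≤ m) (hn : 1 ≤ n)
    (h : ∀ x : ℕ, 1 ≤ x → (x : ℝ) < m → t x < n) :
    t n ≤ ENNReal.ofReal (1 + 1.6 * m ^ (-0.048 : ℝ)) * e n := by
  have hp : 0 < m ^ (-0.048 : ℝ) := Real.rpow_pos_of_pos (by linarith) _
  apply Pool.Agent.Lib.MP_0a5adf_nt.H57.Par.t_le_e (by linarith)
  intro j
  obtain ⟨i, hij, h1, h2⟩ := Pool.Agent.Lib.MP_0a5adf_nt.H57.Par.first n j
  by_cases hle : T^[j] n ≤ n
  · refine ⟨0, Nat.zero_le _, ?_⟩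
    have h3 : (T^[j] n : ℝ) ≤ n := by exact_mod_cast hle
    have h4 : (0 : ℝ) ≤ n := Nat.cast_nonneg _
    have h5 : o n 0 = 0 := rfl
    rw [h5]
    simp only [pow_zero, one_mul]
    nlinarith
  · refine ⟨i, hij, ?_⟩
    rw [← h1]
    refine all_tail n i m hn hm (fun a b hab hb => h2 a b hab (by omega)) fun a ha => ?_
    by_contra hc
    push Not at hc
    have hpos : 1 ≤ T^[a] n := Pool.Agent.Lib.MP_edb5be_nt.H26U.iter_pos hn a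
    have h3 := h _ hpos hc
    have h4 : ((T^[j - a] (T^[a] n) : ℕ) : ℝ≥0∞) ≤ t (T^[a] n) :=
      le_iSup (fun k : ℕ => (T^[k] (T^[a] n) : ℝ≥0∞)) (j - a)
    rw [← Function.iterate_add_apply, show j - a + a = j by omega] at h4
    have h5 : ((T^[j] n : ℕ) : ℝ≥0∞) < (n : ℝ≥0∞) := lt_of_le_of_lt h4 h3
    have h6 : T^[j] n < n := by exact_mod_cast h5
    omega

end Pool.Agent.Lib.MP_0a5adf_nt.H26.Exc
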