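import Pool.Agent.Lib.MP_0a5adf_nt.TP.Interfaces
import Pool.Agent.Lib.MP_0a5adf_nt.H89.Final

/-!
From the statement for dyadic blocks to the hand-in: natural density and excursions.
-/

set_option autoImplicit false

namespace Pool.Agent.Lib.MP_0a5adf_nt.H26

open Finset Filter Pool.Agent.Lib.MP_0a5adf_nt.TP

theorem T_true : T true = H89.T := by
  funext n
  unfold T H89.T
  simp

/-- The trajectory of `n` falls below `y` before it reaches `lam * n`. -/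
def Falls (d : Bool) (n : ℕ) (y lam : ℝ) : Prop :=
  ∃ k : ℕ, ((T d)^[k] n : ℝ) < y ∧ ∀ j < k, ((T d)^[j] n : ℝ) < lam * n

theorem Falls.mono {d : Bool} {n : ℕ} {y y' lam lam' : ℝ} (h : Falls d n y lam) (hy : y ≤ y')
    (hl : lam ≤ lam') : Falls d n y' lam' := by
  obtain ⟨k, h1, h2⟩ := h
  refine ⟨k, lt_of_lt_of_le h1 hy, fun j hj => lt_of_lt_of_le (h2 j hj) ?_⟩
  exact mul_le_mul_of_nonneg_right hl (Nat.cast_nonneg n)

theorem mem_Fail {d : Bool} {L n : ℕ} {y lam : ℝ} :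
    n ∈ Fail d L y lam ↔ 2 ^ L ≤ n ∧ n < 2 ^ (L + 1) ∧ ¬ Falls d n y lam := Iff.rfl

theorem Fail_finite (d : Bool) (L : ℕ) (y lam : ℝ) : (Fail d L y lam).Finite :=
  (Set.finite_Iio (2 ^ (L + 1))).subset (fun _ hn => hn.2.1)

open scoped Classical in
/-- From dyadic blocks to natural density. -/
theorem dens_of_blocks (P : ℕ → Prop) (h' : ∀ ε : ℝ, 0 < ε → ∃ L₀ : ℕ, ∀ L, L₀ ≤ L →
    ({n : ℕ | 2 ^ L ≤ n ∧ n < 2 ^ (L + 1) ∧ P n}.ncard : ℝ) ≤ ε * 2 ^ L) :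
    Tendsto (fun N : ℕ => ({n : ℕ | n < N ∧ P n}.ncard : ℝ) / N) atTop (nhds 0) := by
  have h : ∀ ε : ℝ, 0 < ε → ∃ L₀ : ℕ, ∀ L, L₀ ≤ L →
      (((Ico (2 ^ L) (2 ^ (L + 1))).filter P).card : ℝ) ≤ ε * 2 ^ L := by
    intro ε hε
    obtain ⟨L₀, hL₀⟩ := h' ε hε
    refine ⟨L₀, fun L hL => le_trans (le_of_eq ?_) (hL₀ L hL)⟩
    rw [← Set.ncard_coe_finset]
    congr 2
    ext n
    simp [and_assoc]
  have hset : ∀ N : ℕ, ({n : ℕ | n < N ∧ P n}.ncard : ℝ) = (((range N).filter P).card : ℝ) := by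
    intro N
    rw [← Set.ncard_coe_finset]
    congr 2
    ext n
    simp
  simp only [hset]
  rw [Metric.tendsto_atTop]
  intro ε hε
  obtain ⟨L₀, hL₀⟩ := h (ε / 4) (by positivity)
  -- numbers below `2 ^ M`
  have hsum : ∀ M, L₀ ≤ M → (((range (2 ^ M)).filter P).card : ℝ) ≤
      2 ^ L₀ + ε / 4 * 2 ^ M := by
    intro M hM
    induction M, hM using Nat.le_induction with
    | base =>
      have h1 : ((range (2 ^ L₀)).filter P).card ≤ 2 ^ L₀ := by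
        refine (card_filter_le _ _).trans ?_
        simp
      have h2 : (((range (2 ^ L₀)).filter P).card : ℝ) ≤ 2 ^ L₀ := by
        exact_mod_cast h1
      have : (0 : ℝ) ≤ ε / 4 * 2 ^ L₀ := by positivity
      linarith
    | succ M hM ih =>
      have h1 : ((range (2 ^ (M + 1))).filter P) =
          ((range (2 ^ M)).filter P) ∪ ((Ico (2 ^ M) (2 ^ (M + 1))).filter P) := by
        rw [← filter_union]
        congr 1
        ext a
        rw [mem_union, mem_range, mem_range, mem_Ico]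
        have : 2 ^ M ≤ 2 ^ (M + 1) := Nat.pow_le_pow_right (by norm_num) (Nat.le_succ M)
        omega
      have h2 : (((range (2 ^ (M + 1))).filter P).card : ℝ) ≤
          (((range (2 ^ M)).filter P).card : ℝ) +
            (((Ico (2 ^ M) (2 ^ (M + 1))).filter P).card : ℝ) := by
        rw [h1]
        exact_mod_cast card_union_le _ _
      have h3 := hL₀ M hM
      have h4 : (2 : ℝ) ^ (M + 1) = 2 ^ M + 2 ^ M := by ring
      rw [h4]
      linarith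
  obtain ⟨N₀, hN₀⟩ := exists_nat_gt ((2 : ℝ) ^ L₀ * (4 / ε))
  refine ⟨max N₀ (2 ^ L₀), fun N hN => ?_⟩
  have hN1 : N₀ ≤ N := le_trans (le_max_left _ _) hN
  have hN2 : 2 ^ L₀ ≤ N := le_trans (le_max_right _ _) hN
  have hNpos : 0 < N := lt_of_lt_of_le (by positivity) hN2
  have hNr : (0 : ℝ) < N := by exact_mod_cast hNpos
  set M := Nat.log 2 N + 1 with hM
  have hM1 : N < 2 ^ M := Nat.lt_pow_succ_log_self (by norm_num) N
  have hM2 : 2 ^ M ≤ 2 * N := by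
    rw [hM, pow_succ]
    have := Nat.pow_log_le_self 2 hNpos.ne'
    omega
  have hM3 : L₀ ≤ M := by
    have : L₀ ≤ Nat.log 2 N := (Nat.le_log_iff_pow_le (by norm_num) hNpos.ne').2 hN2
    omega
  have h1 := hsum M hM3
  have h2 : (((range N).filter P).card : ℝ) ≤ (((range (2 ^ M)).filter P).card : ℝ) := by
    have : ((range N).filter P).card ≤ ((range (2 ^ M)).filter P).card := by
      apply card_le_card
      apply filter_subset_filter
      intro a ha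
      rw [mem_range] at ha ⊢
      omega
    exact_mod_cast this
  have h3 : (2 : ℝ) ^ M ≤ 2 * N := by exact_mod_cast hM2
  have h4 : (2 : ℝ) ^ L₀ < ε / 4 * N := by
    have h5 : (2 : ℝ) ^ L₀ * (4 / ε) < N := lt_of_lt_of_le hN₀ (by exact_mod_cast hN1)
    have h6 : (2 : ℝ) ^ L₀ * (4 / ε) * (ε / 4) = 2 ^ L₀ := by field_simp
    calc (2 : ℝ) ^ L₀ = (2 : ℝ) ^ L₀ * (4 / ε) * (ε / 4) := h6.symm
      _ < N * (ε / 4) := mul_lt_mul_of_pos_right h5 (by positivity)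
      _ = _ := by ring
  rw [Real.dist_eq, sub_zero, abs_of_nonneg (by positivity), div_lt_iff₀ hNr]
  have h7 : ε / 4 * 2 ^ M ≤ ε / 4 * (2 * N) := mul_le_mul_of_nonneg_left h3 (by positivity)
  nlinarith

/-- A level at which the exceptional proportion is at most `ε`. -/
theorem exists_level {c C ε : ℝ} (hc : 0 < c) (hε : 0 < ε) :
    ∃ Y : ℝ, 1 ≤ Y ∧ 2 / Y + C / Y ^ c ≤ ε := by
  have h1 : Tendsto (fun Y : ℝ => 2 / Y + C / Y ^ c) atTop (nhds (0 + 0)) := by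
    refine Tendsto.add ?_ ?_
    · exact tendsto_const_nhds.div_atTop tendsto_id
    · exact tendsto_const_nhds.div_atTop (tendsto_rpow_atTop hc)
  rw [add_zero] at h1
  obtain ⟨Y, h2, h3⟩ := ((h1.eventually_le_const hε).and (eventually_ge_atTop 1)).exists
  exact ⟨Y, h3, h2⟩

/-- **Natural density**: almost every `n` falls below `g n` before reaching `g n * n`. -/
theorem density {d : Bool} (hF : FinalStatement d) (g : ℕ → ℝ) (hg : Tendsto g atTop atTop) :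
    Tendsto (fun N : ℕ => ({n : ℕ | n < N ∧ ¬ Falls d n (g n) (g n)}.ncard : ℝ) / N)
      atTop (nhds 0) := by
  classical
  obtain ⟨c, C, hc, hC, h⟩ := hF
  refine dens_of_blocks _ fun ε hε => ?_
  obtain ⟨Y, hY1, hY2⟩ := exists_level (C := C) hc hε
  obtain ⟨N₁, hN₁⟩ := eventually_atTop.1 (hg.eventually_ge_atTop Y)
  refine ⟨max N₁ 1, fun L hL => ?_⟩
  have hL1 : 1 ≤ L := le_trans (le_max_right _ _) hL
  have hb := h L Y Y hL1 hY1 hY1
  have hsub : {n : ℕ | 2 ^ L ≤ n ∧ n < 2 ^ (L + 1) ∧ ¬ Falls d n (g n) (g n)} ⊆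
      Fail d L Y Y := by
    rintro n ⟨hn1, hn2, hn3⟩
    refine ⟨hn1, hn2, fun hfall => hn3 ?_⟩
    have hgn : Y ≤ g n := by
      apply hN₁
      have h1 : L < 2 ^ L := Nat.lt_two_pow_self
      have h2 : N₁ ≤ L := le_trans (le_max_left _ _) hL
      omega
    exact Falls.mono hfall hgn hgn
  have h1 := Set.ncard_le_ncard hsub (Fail_finite d L Y Y)
  have h2 : (({n : ℕ | 2 ^ L ≤ n ∧ n < 2 ^ (L + 1) ∧ ¬ Falls d n (g n) (g n)}.ncard : ℕ) : ℝ) ≤
      ((Fail d L Y Y).ncard : ℝ) := by exact_mod_cast h1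
  refine h2.trans (hb.trans ?_)
  exact mul_le_mul_of_nonneg_right hY2 (by positivity)

/-- If all trajectories are bounded, a trajectory that falls below `Y` before reaching `lam * n`
never reaches `lam * n`, for large `n`. -/
theorem exists_bound {d : Bool} (hb : ∀ n, ∃ R : ℕ, ∀ k, (T d)^[k] n ≤ R) (Y : ℝ) :
    ∃ n₀ : ℕ, ∀ (n : ℕ) (lam : ℝ), n₀ ≤ n → 1 ≤ lam → Falls d n Y lam →
      ∀ k, ((T d)^[k] n : ℝ) < lam * n := by
  choose R hR using hb
  obtain ⟨m₀, hm₀⟩ := exists_nat_gt Y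
  refine ⟨∑ m ∈ range (m₀ + 1), R m + 1, fun n lam hn hlam hfall k => ?_⟩
  obtain ⟨k₀, h1, h2⟩ := hfall
  rcases Nat.lt_or_ge k k₀ with h3 | h3
  · exact h2 k h3
  · obtain ⟨e, rfl⟩ := Nat.exists_eq_add_of_le h3
    set m := (T d)^[k₀] n with hm
    have h4 : m < m₀ + 1 := by
      have : (m : ℝ) < m₀ := lt_trans h1 hm₀
      have : m < m₀ := by exact_mod_cast this
      omega
    have h5 : (T d)^[k₀ + e] n ≤ R m := by
      rw [add_comm, Function.iterate_add_apply]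
      exact hR m e
    have h6 : R m ≤ ∑ m ∈ range (m₀ + 1), R m :=
      single_le_sum (f := R) (fun _ _ => Nat.zero_le _) (mem_range.2 h4)
    have h7 : (T d)^[k₀ + e] n < n := by omega
    have h8 : ((T d)^[k₀ + e] n : ℝ) < n := by exact_mod_cast h7
    have h9 : (0 : ℝ) ≤ n := Nat.cast_nonneg n
    nlinarith

/-- **Maximum excursions**, if all trajectories are bounded. -/
theorem maxexc {d : Bool} (hF : FinalStatement d) : MaxExcStatement d := by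
  intro hb lam ε hlam hε
  obtain ⟨c, C, hc, hC, h⟩ := hF
  obtain ⟨Y, hY1, hY2⟩ := exists_level (C := C) hc hε
  obtain ⟨n₀, hn₀⟩ := exists_bound hb Y
  refine ⟨max n₀ 1, fun L hL => ?_⟩
  have hL1 : 1 ≤ L := le_trans (le_max_right _ _) hL
  have hsub : {n : ℕ | 2 ^ L ≤ n ∧ n < 2 ^ (L + 1) ∧ ∃ k, lam * n ≤ ((T d)^[k] n : ℝ)} ⊆
      Fail d L Y lam := by
    rintro n ⟨h1, h2, k, hk⟩
    refine ⟨h1, h2, fun hfall => ?_⟩
    have h3 : L < 2 ^ L := Nat.lt_two_pow_self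
    have h4 : n₀ ≤ L := le_trans (le_max_left _ _) hL
    have := hn₀ n lam (by omega) hlam hfall k
    linarith
  have h1 := Set.ncard_le_ncard hsub (Fail_finite d L Y lam)
  have h2 : (({n : ℕ | 2 ^ L ≤ n ∧ n < 2 ^ (L + 1) ∧ ∃ k, lam * n ≤ ((T d)^[k] n : ℝ)}.ncard : ℕ)
      : ℝ) ≤ ((Fail d L Y lam).ncard : ℝ) := by exact_mod_cast h1
  refine h2.trans ((h L Y lam hL1 hY1 hlam).trans ?_)
  refine mul_le_mul_of_nonneg_right ?_ (by positivity)
  have h3 : (0 : ℝ) ≤ 2 / Y := by positivity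
  linarith

theorem Fail_eq (L : ℕ) (y lam : ℝ) : Fail true L y lam = H89.Fail L y lam := by
  unfold Fail H89.Fail
  rw [T_true]

/-- The estimates for dyadic blocks. -/
theorem blocks (hF : FinalStatement true) (δ : ℝ) (hδ0 : 0 < δ)
    (hδ : δ < 3 / 2 - Real.logb 2 (1 + √3)) :
    ∃ c C : ℝ, 0 < c ∧ 0 < C ∧ ∀ (L : ℕ) (y lam : ℝ), 1 ≤ L → 1 ≤ y → 1 ≤ lam →
      ((Fail true L y lam).ncard : ℝ) ≤ (2 / lam + C / y ^ c) * 2 ^ L ∧
      (y ^ 2 ≤ 2 ^ L →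
        ((Fail true L y lam).ncard : ℝ) ≤ (2 / lam + C * L / y ^ δ) * 2 ^ L ∧
        (lam ≤ (2 : ℝ) ^ ((L : ℝ) / 6) →
          c / lam * 2 ^ L ≤ ((Fail true L y lam).ncard : ℝ))) := by
  obtain ⟨c₁, C₁, hc₁, hC₁, h₁⟩ := hF
  obtain ⟨c₂, C₂, hc₂, hC₂, h₂⟩ := H89.descent δ hδ0 hδ
  refine ⟨min c₁ c₂, max C₁ C₂, by positivity, by positivity, fun L y lam h0 hy hlam => ?_⟩
  have hypos : 0 < y := by linarith
  have h1 : y ^ (min c₁ c₂) ≤ y ^ c₁ := Real.rpow_le_rpow_of_exponent_le hy (min_le_left _ _)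
  have h2 : (0 : ℝ) < y ^ (min c₁ c₂) := Real.rpow_pos_of_pos hypos _
  have h2' : (0 : ℝ) < y ^ δ := Real.rpow_pos_of_pos hypos _
  have h2L : (0 : ℝ) < 2 ^ L := by positivity
  constructor
  · refine (h₁ L y lam h0 hy hlam).trans ?_
    refine mul_le_mul_of_nonneg_right ?_ h2L.le
    have h3 : C₁ / y ^ c₁ ≤ max C₁ C₂ / y ^ (min c₁ c₂) :=
      div_le_div₀ (by positivity) (le_max_left _ _) h2 h1
    linarith
  · intro hy2
    have h3 := h₂ L y lam h0 hy hy2 hlam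
    rw [Fail_eq]
    constructor
    · refine h3.1.trans ?_
      have h4 : C₂ * L * 2 ^ L / y ^ δ ≤ max C₁ C₂ * L * 2 ^ L / y ^ δ := by
        gcongr
        exact le_max_right _ _
      calc 2 * 2 ^ L / lam + C₂ * L * 2 ^ L / y ^ δ
          ≤ 2 * 2 ^ L / lam + max C₁ C₂ * L * 2 ^ L / y ^ δ := by linarith
        _ = _ := by ring
    · intro hlam2
      refine le_trans ?_ (h3.2 hlam2)
      have h4 : min c₁ c₂ ≤ c₂ := min_le_right _ _
      have h5 : (0 : ℝ) < lam := by linarith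
      calc min c₁ c₂ / lam * 2 ^ L ≤ c₂ / lam * 2 ^ L := by gcongr
        _ = _ := by ring

/-- The two-sided estimate for the maximum excursion, if all trajectories are bounded. -/
theorem excursions (hF : FinalStatement true) (hb : ∀ n, ∃ R : ℕ, ∀ k, (T true)^[k] n ≤ R) :
    ∃ c : ℝ, 0 < c ∧ ∀ lam ε : ℝ, 1 ≤ lam → 0 < ε → ∃ L₀ : ℕ, ∀ L, L₀ ≤ L →
      c / lam * 2 ^ L ≤
        ({n : ℕ | 2 ^ L ≤ n ∧ n < 2 ^ (L + 1) ∧ ∃ k, lam * n ≤ ((T true)^[k] n : ℝ)}.ncard : ℝ) ∧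
      ({n : ℕ | 2 ^ L ≤ n ∧ n < 2 ^ (L + 1) ∧ ∃ k, lam * n ≤ ((T true)^[k] n : ℝ)}.ncard : ℝ) ≤
        (2 / lam + ε) * 2 ^ L := by
  obtain ⟨c, hc, hT⟩ := H89.tail_order (1 / 6) H89.one_sixth_lt
  refine ⟨c, hc, fun lam ε hlam hε => ?_⟩
  obtain ⟨L₀, hL₀⟩ := maxexc hF hb lam ε hlam hε
  have h1 : Tendsto (fun L : ℕ => (2 : ℝ) ^ (1 / 6 * (L : ℝ))) atTop atTop := by
    have h2 : Tendsto (fun L : ℕ => (1 / 6 : ℝ) * (L : ℝ)) atTop atTop :=
      tendsto_natCast_atTop_atTop.const_mul_atTop (by norm_num)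
    exact (tendsto_rpow_atTop_of_base_gt_one 2 (by norm_num)).comp h2
  obtain ⟨L₁, hL₁⟩ := eventually_atTop.1 (h1.eventually_ge_atTop lam)
  refine ⟨max L₀ L₁, fun L hL => ⟨?_, hL₀ L (le_trans (le_max_left _ _) hL)⟩⟩
  have h2 := (hT L lam hlam (hL₁ L (le_trans (le_max_right _ _) hL))).1
  have h3 : c / lam * 2 ^ L = c * 2 ^ L / lam := by ring
  rw [h3]
  refine h2.trans ?_
  have h4 : H89.Reach L lam ⊆
      {n : ℕ | 2 ^ L ≤ n ∧ n < 2 ^ (L + 1) ∧ ∃ k, lam * n ≤ ((T true)^[k] n : ℝ)} := by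
    rintro n ⟨h5, h6, k, _, h7⟩
    refine ⟨h5, h6, k, ?_⟩
    rw [T_true]
    exact h7
  have h5 := Set.ncard_le_ncard h4
    ((Set.finite_Iio (2 ^ (L + 1))).subset (fun _ hn => hn.2.1))
  exact_mod_cast h5

end Pool.Agent.Lib.MP_0a5adf_nt.H26
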