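import Pool.Agent.Lib.MP_0a5adf_nt.H26.Exc

/-!
# `3^(o_j(n)) / 2^j` tends to `0` or to infinity (helper26)
-/

set_option autoImplicit false

namespace Pool.Agent.Lib.MP_0a5adf_nt.H26.Law

open Finset Function Filter
open scoped ENNReal

open Pool.Agent.Lib.MP_edb5be_nt.H26U (rt od Tn rt_succ od_succ rt_zero od_zero iter_pos rt_pos rt_all)

theorem rt_eq {n : ℕ} (hn : 1 ≤ n) (j : ℕ) :
    (3 : ℝ) ^ od n j / 2 ^ j = (Tn^[j] n : ℝ) / (n * rt n j) := by
  have h1 : (0 : ℝ) < n := by exact_mod_cast hn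
  have h2 : (0 : ℝ) < (Tn^[j] n : ℝ) := by exact_mod_cast iter_pos hn j
  rw [rt]
  field_simp

theorem rt_ge {n : ℕ} (hn : 1 ≤ n) {A : ℝ} (hA : ∀ k, (Tn^[k] n : ℝ) ≤ A) (j : ℕ) :
    (1 + 1 / (3 * A)) ^ od n j ≤ rt n j := by
  have hA0 : 0 < A := by
    have h1 := hA 0
    have h2 : (1 : ℝ) ≤ n := by exact_mod_cast hn
    simp only [iterate_zero, id] at h1
    linarith
  induction j with
  | zero => rw [od_zero, rt_zero hn, pow_zero]
  | succ j ih =>
    rw [rt_succ hn, od_succ]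
    have h2 : (0 : ℝ) < (Tn^[j] n : ℝ) := by exact_mod_cast iter_pos hn j
    have h3 := rt_pos hn j
    split_ifs
    · rw [add_zero, mul_one]
      exact ih
    · rw [pow_succ]
      have h4 : 1 / (3 * A) ≤ 1 / (3 * (Tn^[j] n : ℝ)) :=
        one_div_le_one_div_of_le (by positivity) (by linarith [hA j])
      exact mul_le_mul ih (by linarith) (by positivity) h3.le

theorem rt_le4 {n : ℕ} (hn : 1 ≤ n) (j : ℕ) : rt n j ≤ (4 / 3) ^ od n j := by
  induction j with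
  | zero => rw [od_zero, rt_zero hn, pow_zero]
  | succ j ih =>
    rw [rt_succ hn, od_succ]
    have h2 : (1 : ℝ) ≤ (Tn^[j] n : ℝ) := by exact_mod_cast iter_pos hn j
    have h3 := rt_pos hn j
    split_ifs
    · rw [add_zero, mul_one]
      exact ih
    · rw [pow_succ]
      have h4 : 1 / (3 * (Tn^[j] n : ℝ)) ≤ 1 / 3 :=
        one_div_le_one_div_of_le (by norm_num) (by linarith)
      exact mul_le_mul ih (by linarith) (by positivity) (by positivity)

theorem od_tendsto {n : ℕ} (hn : 1 ≤ n) : Tendsto (fun j => od n j) atTop atTop := by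
  rw [tendsto_atTop_atTop]
  intro b
  have h1 : (0 : ℝ) < n := by exact_mod_cast hn
  obtain ⟨i, hi⟩ : ∃ i : ℕ, (4 : ℝ) ^ b * n < 2 ^ i := pow_unbounded_of_one_lt _ (by norm_num)
  refine ⟨i, fun a ha => ?_⟩
  by_contra hcon
  push Not at hcon
  have h2 : (2 : ℝ) ^ i ≤ 2 ^ a := pow_le_pow_right₀ (by norm_num) ha
  have h3 : (2 : ℝ) ^ a ≤ 4 ^ od n a * n := by
    have h4 : (1 : ℝ) ≤ (Tn^[a] n : ℝ) := by exact_mod_cast iter_pos hn a
    have h5 := rt_le4 hn a
    rw [rt, div_le_iff₀ (by positivity)] at h5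
    have h6 : ((4 : ℝ) / 3) ^ od n a * (3 ^ od n a * n) = 4 ^ od n a * n := by
      rw [← mul_assoc, ← mul_pow]
      norm_num
    rw [h6] at h5
    have h7 : (0 : ℝ) < 2 ^ a := by positivity
    nlinarith
  have h8 : (4 : ℝ) ^ od n a ≤ 4 ^ b := pow_le_pow_right₀ (by norm_num) hcon.le
  have h9 : (4 : ℝ) ^ od n a * n ≤ 4 ^ b * n := mul_le_mul_of_nonneg_right h8 h1.le
  linarith

/-- bounded trajectories -/
theorem zero_law {n : ℕ} (hn : 1 ≤ n) (h : ∃ A : ℝ, ∀ k, (Tn^[k] n : ℝ) ≤ A) :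
    Tendsto (fun j => (3 : ℝ) ^ od n j / 2 ^ j) atTop (nhds 0) := by
  obtain ⟨A, hA⟩ := h
  have h1 : (1 : ℝ) ≤ n := by exact_mod_cast hn
  have hA0 : 0 < A := by
    have h1' := hA 0
    simp only [iterate_zero, id] at h1'
    linarith
  set ρ : ℝ := (1 + 1 / (3 * A))⁻¹ with hρ
  have hq : (1 : ℝ) < 1 + 1 / (3 * A) := by
    have : 0 < 1 / (3 * A) := by positivity
    linarith
  have hρ1 : ρ < 1 := inv_lt_one_of_one_lt₀ hq
  have hρ0 : 0 ≤ ρ := by positivity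
  have hlim : Tendsto (fun j => A * ρ ^ od n j) atTop (nhds 0) := by
    have := ((tendsto_pow_atTop_nhds_zero_of_lt_one hρ0 hρ1).comp (od_tendsto hn)).const_mul A
    simpa using this
  refine squeeze_zero (fun j => by positivity) (fun j => ?_) hlim
  rw [rt_eq hn, hρ, inv_pow, ← div_eq_mul_inv]
  have h3 := rt_ge hn hA j
  have h4 : (0 : ℝ) < (1 + 1 / (3 * A)) ^ od n j := by positivity
  have h5 : (1 + 1 / (3 * A)) ^ od n j ≤ n * rt n j := by
    have h6 := rt_pos hn j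
    nlinarith
  exact div_le_div₀ hA0.le (hA j) h4 h5

theorem distinct {n : ℕ} (h : ¬ ∃ A : ℝ, ∀ k, (Tn^[k] n : ℝ) ≤ A) :
    ∀ a b, a < b → Tn^[a] n ≠ Tn^[b] n := by
  intro a b hab heq
  apply h
  -- every value is one of the first `b` ones
  have key : ∀ k, ∃ i < b, Tn^[k] n = Tn^[i] n := by
    intro k
    induction k with
    | zero => exact ⟨0, by omega, rfl⟩
    | succ k ih =>
      obtain ⟨i, hi, h1⟩ := ih
      rw [iterate_succ_apply', h1, ← iterate_succ_apply' Tn i n]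
      rcases Nat.lt_or_ge (i + 1) b with h2 | h2
      · exact ⟨i + 1, h2, rfl⟩
      · have h3 : i + 1 = b := by omega
        exact ⟨a, hab, by rw [Nat.succ_eq_add_one, h3, heq]⟩
  refine ⟨((range b).sup (fun i => Tn^[i] n) : ℕ), fun k => ?_⟩
  obtain ⟨i, hi, h1⟩ := key k
  rw [h1]
  exact_mod_cast Finset.le_sup (f := fun i => Tn^[i] n) (mem_range.2 hi)

theorem not_one {n : ℕ} (h : ∀ a b, a < b → Tn^[a] n ≠ Tn^[b] n) (i : ℕ) : Tn^[i] n ≠ 1 := by
  intro hi
  refine h i (i + 2) (by omega) ?_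
  rw [Nat.add_comm i 2, iterate_add_apply, hi]
  rfl

/-- the correction factor converges -/
theorem limit_factor {n : ℕ} (hn : 1 ≤ n) (h : ¬ ∃ A : ℝ, ∀ k, (Tn^[k] n : ℝ) ≤ A) :
    ∃ R : ℝ, 1 ≤ R ∧ R ≤ 1.92 ∧ Tendsto (fun j => rt n j) atTop (nhds R) := by
  have hinj := distinct h
  have hone := not_one hinj
  have hmono : Monotone (fun j => rt n j) := by
    refine monotone_nat_of_le_succ fun j => ?_
    rw [rt_succ hn]
    have h2 : (0 : ℝ) < (Tn^[j] n : ℝ) := by exact_mod_cast iter_pos hn j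
    have h3 := rt_pos hn j
    have h4 : 0 ≤ 1 / (3 * (Tn^[j] n : ℝ)) := by positivity
    split_ifs
    · rw [mul_one]
    · nlinarith
  have hle : ∀ j, rt n j ≤ 1.92 := fun j =>
    rt_all n hn j (fun a b hab _ => hinj a b hab) (fun i _ => hone i)
  have hb : BddAbove (Set.range fun j => rt n j) := ⟨1.92, by
    rintro _ ⟨j, rfl⟩
    exact hle j⟩
  refine ⟨⨆ j, rt n j, ?_, ciSup_le hle, tendsto_atTop_ciSup hmono hb⟩
  have := le_ciSup hb 0
  rwa [rt_zero hn] at this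

/-- unbounded trajectories -/
theorem infty_law {n : ℕ} (hn : 1 ≤ n) (h : ¬ ∃ A : ℝ, ∀ k, (Tn^[k] n : ℝ) ≤ A) :
    Tendsto (fun j => (3 : ℝ) ^ od n j / 2 ^ j) atTop atTop := by
  have hinj := distinct h
  have hone := not_one hinj
  have h1 : (0 : ℝ) < n := by exact_mod_cast hn
  have hT : Tendsto (fun j => (Tn^[j] n : ℝ) / (1.92 * n)) atTop atTop := by
    have h2 : Injective (fun j => Tn^[j] n) := by
      intro a b hab
      rcases lt_trichotomy a b with h3 | h3 | h3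
      · exact absurd hab (hinj a b h3)
      · exact h3
      · exact absurd hab.symm (hinj b a h3)
    exact (tendsto_natCast_atTop_atTop.comp h2.nat_tendsto_atTop).atTop_div_const (by positivity)
  refine tendsto_atTop_mono (fun j => ?_) hT
  rw [rt_eq hn]
  have h3 := rt_all n hn j (fun a b hab _ => hinj a b hab) (fun i _ => hone i)
  have h4 := rt_pos hn j
  have h5 : (0 : ℝ) ≤ (Tn^[j] n : ℝ) := Nat.cast_nonneg _
  apply div_le_div_of_nonneg_left h5 (by positivity)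
  nlinarith

theorem limit_ratio {n : ℕ} (hn : 1 ≤ n) (h : ¬ ∃ A : ℝ, ∀ k, (Tn^[k] n : ℝ) ≤ A) :
    ∃ R : ℝ, 1 ≤ R ∧ R ≤ 1.92 ∧
      Tendsto (fun j => (Tn^[j] n : ℝ) / ((n : ℝ) * 3 ^ od n j / 2 ^ j)) atTop (nhds R) := by
  obtain ⟨R, h1, h2, h3⟩ := limit_factor hn h
  refine ⟨R, h1, h2, h3.congr fun j => ?_⟩
  have h4 : (0 : ℝ) < n := by exact_mod_cast hn
  rw [rt]
  field_simp

end Pool.Agent.Lib.MP_0a5adf_nt.H26.Law
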