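import Pool.Agent.Lib.MP_0a5adf_nt.TP.Interfaces

/-!
Modules MASS and HEXP.
-/

set_option autoImplicit false

namespace Pool.Agent.Lib.MP_0a5adf_nt.H26

open Finset Pool.Agent.Lib.MP_0a5adf_nt.TP

theorem fam_zero (c : ℕ) : Fam 0 c = if c = 0 then {∅} else ∅ := by
  unfold Fam
  rw [powersetCard_zero, filter_singleton, sup_empty]
  by_cases h : c = 0
  · subst h; simp
  · rw [if_neg h, if_neg]
    intro h'
    exact h h'.symm

theorem fam_one (c : ℕ) : Fam 1 c = if c = 0 then ∅ else {{c}} := by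
  unfold Fam
  ext S
  rw [mem_filter, mem_powersetCard]
  by_cases h : c = 0
  · subst h
    rw [if_pos rfl]
    simp only [notMem_empty, iff_false, not_and]
    rintro ⟨h1, h2⟩
    rw [Icc_eq_empty (by omega), subset_empty] at h1
    subst h1
    simp at h2
  · rw [if_neg h, mem_singleton]
    constructor
    · rintro ⟨⟨h1, h2⟩, h3⟩
      rw [card_eq_one] at h2
      obtain ⟨a, rfl⟩ := h2
      rw [sup_singleton] at h3
      simp only [id] at h3
      rw [h3]
    · rintro rfl
      refine ⟨⟨?_, card_singleton c⟩, ?_⟩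
      · rw [singleton_subset_iff, mem_Icc]; omega
      · rw [sup_singleton]; rfl

/-- Convolutions. -/
theorem conv_le (u w : ℕ → ℝ) (hu : ∀ a, 0 ≤ u a) (hw : ∀ a, 0 ≤ w a) (c₁ : ℕ) :
    ∑ c ∈ range c₁, ∑ a ∈ Icc 1 c, u a * w (c - a) ≤
      (∑ a ∈ Ico 1 c₁, u a) * ∑ c ∈ range c₁, w c := by
  rw [sum_comm' (t' := Ico 1 c₁) (s' := fun a => Ico a c₁)
    (by intro c a; simp only [mem_range, mem_Icc, mem_Ico]; omega), sum_mul]
  refine sum_le_sum fun a ha => ?_
  rw [← mul_sum]
  refine mul_le_mul_of_nonneg_left ?_ (hu a)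
  rw [sum_Ico_eq_sum_range]
  simp only [Nat.add_sub_cancel_left]
  refine sum_le_sum_of_subset_of_nonneg ?_ (fun _ _ _ => hw _)
  intro c hc
  rw [mem_range] at hc ⊢
  omega

theorem geom_le {z : ℝ} (h0 : 0 ≤ z) (h1 : z < 1) (c₁ : ℕ) :
    ∑ a ∈ Ico 1 c₁, z ^ a ≤ z / (1 - z) := by
  rcases Nat.eq_zero_or_pos c₁ with h | h
  · subst h
    rw [Ico_eq_empty (by omega), sum_empty]
    have : 0 < 1 - z := by linarith
    positivity
  · have hz : 0 < 1 - z := by linarith
    have h2 : ∑ a ∈ Ico 1 c₁, z ^ a = (z - z ^ c₁) / (1 - z) := by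
      rw [geom_sum_Ico (by linarith) h, pow_one, ← neg_div_neg_eq]
      congr 1 <;> ring
    rw [h2]
    have : 0 ≤ z ^ c₁ := pow_nonneg h0 _
    gcongr
    linarith

/-- First element decomposition. -/
theorem fam_succ (hs : FamSplitStatement) {M : Type} [AddCommMonoid M] (n c : ℕ)
    (g : Finset ℕ → M) :
    ∑ S ∈ Fam (n + 1) c, g S = ∑ a ∈ Icc 1 c, ∑ B ∈ Fam n (c - a), g (cat a {a} B) := by
  rw [add_comm n 1, hs M 1 n c g]
  have h1 : range (c + 1) = insert 0 (Icc 1 c) := by
    ext a; simp only [mem_range, mem_insert, mem_Icc]; omega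
  rw [h1, sum_insert (by simp), fam_one 0, if_pos rfl, sum_empty, zero_add]
  refine sum_congr rfl fun a ha => ?_
  rw [mem_Icc] at ha
  rw [fam_one, if_neg (by omega), sum_singleton]

theorem mass_le (hs : FamSplitStatement) (z : ℝ) (h0 : 0 ≤ z) (h1 : z < 1) (n : ℕ) :
    ∀ c₁ : ℕ, ∑ c ∈ range c₁, ((Fam n c).card : ℝ) * z ^ c ≤ (z / (1 - z)) ^ n := by
  induction n with
  | zero =>
    intro c₁
    rw [pow_zero]
    rcases Nat.eq_zero_or_pos c₁ with h | h
    · subst h; simp
    · rw [sum_eq_single_of_mem 0 (mem_range.2 h)]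
      · rw [fam_zero]; simp
      · intro c _ hc
        rw [fam_zero, if_neg hc]; simp
  | succ n ih =>
    intro c₁
    have hz : 0 < 1 - z := by linarith
    have h2 : ∀ c, ((Fam (n + 1) c).card : ℝ) * z ^ c =
        ∑ a ∈ Icc 1 c, z ^ a * (((Fam n (c - a)).card : ℝ) * z ^ (c - a)) := by
      intro c
      have h3 := fam_succ hs n c (fun _ => (1 : ℝ))
      simp only [sum_const, nsmul_eq_mul, mul_one] at h3
      rw [h3, sum_mul]
      refine sum_congr rfl fun a ha => ?_
      rw [mem_Icc] at ha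
      have h4 : z ^ c = z ^ a * z ^ (c - a) := by
        rw [← pow_add]; congr 1; omega
      rw [h4]; ring
    rw [sum_congr rfl fun c _ => h2 c]
    refine (conv_le (fun a => z ^ a) (fun c => ((Fam n c).card : ℝ) * z ^ c)
      (fun a => by positivity) (fun a => by positivity) c₁).trans ?_
    rw [pow_succ' (z / (1 - z)) n]
    refine mul_le_mul (geom_le h0 h1 c₁) (ih c₁) ?_ (by positivity)
    exact sum_nonneg fun c _ => by positivity

/-- **MASS.** -/
theorem mass (hs : FamSplitStatement) : MassStatement :=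
  ⟨fam_zero, fam_one, fun z n c₁ h0 h1 => mass_le hs z h0 h1 n c₁⟩

theorem xr_nonneg (S : Finset ℕ) : 0 ≤ xr S := sum_nonneg fun _ _ => by positivity

theorem xr_singleton (a : ℕ) : xr {a} = 1 / 2 ^ a := by
  unfold xr rk
  rw [sum_singleton]
  have : ({a} : Finset ℕ).filter (fun y => y < a) = ∅ := by
    rw [filter_singleton, if_neg (lt_irrefl a)]
  rw [this, card_empty, pow_zero]

/-- **HEXP.** -/
theorem hexp (hs : FamSplitStatement) (hc : CatStatement) (hm : MassStatement) :
    HexpStatement := by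
  intro n
  induction n with
  | zero =>
    intro c₁
    have : ∀ c, (∑ S ∈ Fam 0 c, xr S) / 2 ^ c = (0 : ℝ) := by
      intro c
      rw [fam_zero]
      split_ifs
      · simp [xr]
      · simp
    rw [sum_congr rfl fun c _ => this c]
    simp
  | succ n ih =>
    intro c₁
    have h2 : ∀ c, (∑ S ∈ Fam (n + 1) c, xr S) / 2 ^ c =
        ∑ a ∈ Icc 1 c, (1 / 4 : ℝ) ^ a *
          ((∑ B ∈ Fam n (c - a), (1 + 3 * xr B)) / 2 ^ (c - a)) := by
      intro c
      rw [fam_succ hs n c xr, sum_div]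
      refine sum_congr rfl fun a ha => ?_
      rw [mem_Icc] at ha
      have h3 : ∀ B ∈ Fam n (c - a), xr (cat a {a} B) = (1 / 2) ^ a * (1 + 3 * xr B) := by
        intro B hB
        have hB' : B ⊆ Icc 1 (c - a) := by
          unfold Fam at hB
          rw [mem_filter, mem_powersetCard] at hB
          exact hB.1.1
        have h4 := (hc a (c - a) {a} B (by
          rw [singleton_subset_iff, mem_Icc]; omega) hB').2.2.2.1
        rw [h4, xr_singleton, card_singleton, pow_one, one_div_pow]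
        ring
      rw [sum_congr rfl h3, ← mul_sum]
      have h4 : (2 : ℝ) ^ c = 2 ^ a * 2 ^ (c - a) := by
        rw [← pow_add]; congr 1; omega
      rw [h4, show (1 / 4 : ℝ) = 1 / 2 * (1 / 2) by norm_num, mul_pow, one_div_pow]
      field_simp
    rw [sum_congr rfl fun c _ => h2 c]
    refine (conv_le (fun a => (1 / 4 : ℝ) ^ a)
      (fun c => (∑ B ∈ Fam n c, (1 + 3 * xr B)) / 2 ^ c) (fun a => by positivity)
      (fun a => div_nonneg (sum_nonneg fun B _ => by have := xr_nonneg B; positivity)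
        (by positivity)) c₁).trans ?_
    have h5 := geom_le (z := (1 / 4 : ℝ)) (by norm_num) (by norm_num) c₁
    have h6 : ∑ c ∈ range c₁, (∑ B ∈ Fam n c, (1 + 3 * xr B)) / 2 ^ c ≤ 1 + n := by
      have h7 := hm.2.2 (1 / 2) n c₁ (by norm_num) (by norm_num)
      have h8 : ((1 / 2 : ℝ) / (1 - 1 / 2)) ^ n = 1 := by norm_num
      rw [h8] at h7
      have h9 := ih c₁
      have h10 : ∑ c ∈ range c₁, (∑ B ∈ Fam n c, (1 + 3 * xr B)) / 2 ^ c =
          ∑ c ∈ range c₁, ((Fam n c).card : ℝ) * (1 / 2) ^ c +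
            3 * ∑ c ∈ range c₁, (∑ S ∈ Fam n c, xr S) / 2 ^ c := by
        rw [mul_sum, ← sum_add_distrib]
        refine sum_congr rfl fun c _ => ?_
        rw [sum_add_distrib, ← mul_sum, sum_const, nsmul_eq_mul, mul_one, one_div_pow]
        ring
      rw [h10]
      linarith
    have h11 : (1 / 4 : ℝ) / (1 - 1 / 4) = 1 / 3 := by norm_num
    rw [h11] at h5
    calc _ ≤ 1 / 3 * (1 + (n : ℝ)) := mul_le_mul h5 h6
          (sum_nonneg fun c _ => div_nonneg (sum_nonneg fun B _ => by
            have := xr_nonneg B; positivity) (by positivity)) (by norm_num)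
      _ = _ := by push_cast; ring

end Pool.Agent.Lib.MP_0a5adf_nt.H26
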